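import Pool.Agent.R254.Susp.Roof

/-! A transitive shift space with finitely many periodic points and a roof function, cohomologous to
no locally constant function, whose suspension flow is not mixing. -/

set_option autoImplicit false

namespace Pool.Agent.Results.MP_49f1ce_an.Disproof

open Pool.Agent.R254.Susp

theorem result : ∃ (X : Set (ℤ → Bool)) (hX : IsShiftSpace X) (r : X → ℝ),
    IsTransitive X ∧ {x ∈ X | ∃ n : ℕ, 1 ≤ n ∧ shift^[n] x = x}.Finite ∧
    Continuous r ∧ (∀ x, 0 < r x) ∧
    (∃ φ, IsSuspensionFlow (restr X hX) r φ) ∧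
    (∀ φ, IsSuspensionFlow (restr X hX) r φ → ¬ IsMixingFlow φ) ∧
    (∀ c : ℝ, ¬ Cohomologous (restr X hX) r fun _ => c) ∧
    ∀ g : X → ℝ, IsLocConst g → ¬ Cohomologous (restr X hX) r g := by
  refine ⟨XX, isShiftSpace_XX, fun x => rr x.1, isTransitive_XX, finite_periodic,
    continuous_rr.comp continuous_subtype_val, fun x => by have := rr_ge x.1; linarith,
    flow_exists, fun φ hφ => not_mixing hφ, fun c => ?_, not_cohomologous⟩
  exact not_cohomologous _ ⟨0, fun _ _ _ => rfl⟩

end Pool.Agent.Results.MP_49f1ce_an.Disproof
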